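import Pool.Agent.H80.Bi2

set_option autoImplicit false

open MeasureTheory

theorem Pool.Agent.Results.MP_e9cb08_gt.Ineq.result (n : ℕ) (hn : 3 ≤ n)
    (h : EuclideanSpace ℝ (Fin (n - 1)) → ℝ) (hh : ConvexOn ℝ Set.univ h) (h0 : ∀ y, 0 ≤ h y)
    (C : Set (EuclideanSpace ℝ (Fin (n - 1)))) (hC : IsCompact C) (hc : Convex ℝ C) :
    ENNReal.ofReal (2 / ((n : ℝ) - 1)) *
        ∫⁻ z in C, ENNReal.ofReal (h z * Real.sqrt (1 + ‖gradient h z‖ ^ 2)) ≤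
      ∫⁻ y in frontier C, ENNReal.ofReal (‖y‖ ^ 2 + h y ^ 2)
        ∂(Measure.euclideanHausdorffMeasure (n - 2)) := by
  obtain ⟨k, rfl⟩ : ∃ k, n = k + 3 := ⟨n - 3, by omega⟩
  have e : ((k + 3 : ℕ) : ℝ) - 1 = (k : ℝ) + 2 := by push_cast; ring
  rw [e]
  exact Pool.Agent.H80.Bi.main k h hh h0 C hC hc
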